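import Pool.Agent.helper24.SK.Spec

set_option autoImplicit false

namespace Pool.Agent.SK

open Finset ArithmeticFunction MeasureTheory
open Pool.Agent.CH (nit DPb Win Tset ph)
open Pool.Agent.EC (tri vN fN XN TL AdT)
open Pool.Agent.helper85.BVP (tau)
open GD (ks)

private theorem BL5_cont_nit (x : ℝ) : Continuous fun t : ℝ => nit t x := by
  unfold nit
  fun_prop

private theorem BL5_cont_DPb (M : ℕ) (a : ℕ → ℂ) : Continuous fun t : ℝ => DPb M a t := by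
  unfold DPb
  exact continuous_finset_sum _ fun m _ => continuous_const.mul (BL5_cont_nit _)

/-- from logarithms to sizes -/
private theorem BL5_size {R : ℕ} (N : ℕ) (M : Fin R → ℕ) (hM : ∀ i, 1 ≤ M i) (S : Finset (Fin R))
    (hN : N ^ 3 ≤ 2 ^ (R + 4) * ∏ i, M i) (hP : 0 < Real.log ((∏ i, M i : ℕ) : ℝ))
    (hS : 1 ≤ ∑ i ∈ S, 3 * Real.log (M i) / Real.log ((∏ i, M i : ℕ) : ℝ)) :
    (N : ℝ) ≤ 2 ^ (R + 4) * ((∏ i ∈ S, M i : ℕ) : ℝ) := by
  have hpos : ∀ i, (0 : ℝ) < M i := fun i => by exact_mod_cast hM i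
  have hMS : (0 : ℝ) < ((∏ i ∈ S, M i : ℕ) : ℝ) := by
    push_cast
    exact Finset.prod_pos fun i _ => hpos i
  have h1 : ∑ i ∈ S, 3 * Real.log (M i) / Real.log ((∏ i, M i : ℕ) : ℝ) =
      Real.log (((∏ i ∈ S, M i : ℕ) : ℝ) ^ 3) / Real.log ((∏ i, M i : ℕ) : ℝ) := by
    rw [← Finset.sum_div, ← Finset.mul_sum, Real.log_pow]
    congr 1
    push_cast
    rw [Real.log_prod (fun i _ => (hpos i).ne')]
  rw [h1, le_div_iff₀ hP, one_mul] at hS
  have hPpos : (0 : ℝ) < ((∏ i, M i : ℕ) : ℝ) := by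
    push_cast
    exact Finset.prod_pos fun i _ => hpos i
  have h2 : ((∏ i, M i : ℕ) : ℝ) ≤ ((∏ i ∈ S, M i : ℕ) : ℝ) ^ 3 :=
    (Real.log_le_log_iff hPpos (by positivity)).1 hS
  have h3 : (N : ℝ) ^ 3 ≤ 2 ^ (R + 4) * ((∏ i, M i : ℕ) : ℝ) := by exact_mod_cast hN
  have h4 : (N : ℝ) ^ 3 ≤ (2 ^ (R + 4) * ((∏ i ∈ S, M i : ℕ) : ℝ)) ^ 3 := by
    rw [mul_pow]
    refine le_trans h3 (mul_le_mul ?_ h2 hPpos.le (by positivity))
    have h5 : (1 : ℝ) ≤ 2 ^ (R + 4) := one_le_pow₀ (by norm_num)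
    calc (2 : ℝ) ^ (R + 4) = (2 ^ (R + 4)) ^ 1 := (pow_one _).symm
      _ ≤ (2 ^ (R + 4)) ^ 3 := pow_le_pow_right₀ h5 (by norm_num)
  exact le_of_pow_le_pow_left₀ (by norm_num) (by positivity) h4

/-- the mean value in the form of CS3 -/
private theorem BL5_mv (R N K : ℕ) (hN : 1 ≤ N) (L Q J : ℝ) (hL : 0 ≤ L) (hQ0 : 0 ≤ Q)
    (hQ : (N : ℝ) ≤ 2 ^ (R + 4) * Q) (T : ℝ) (hT : (N : ℝ) ≤ T) (hJ : J ≤ (T + Q) * Q * L ^ K) :
    J ≤ 2 ^ (R + 5) * Q ^ 2 * L ^ K * (T / N) := by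
  have hN0 : (0 : ℝ) < N := by exact_mod_cast hN
  have h5 : (1 : ℝ) ≤ 2 ^ (R + 4) := one_le_pow₀ (by norm_num)
  have hTN : (1 : ℝ) ≤ T / N := by rw [le_div_iff₀ hN0]; linarith
  have h1 : T + Q ≤ 2 ^ (R + 5) * Q * (T / N) := by
    have e1 : T = (T / N) * N := by field_simp
    have e2 : Q ≤ (T / N) * Q := by nlinarith
    have e3 : N + Q ≤ 2 ^ (R + 5) * Q := by
      rw [pow_succ]
      nlinarith
    calc T + Q ≤ (T / N) * N + (T / N) * Q := by linarith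
      _ = (T / N) * (N + Q) := by ring
      _ ≤ (T / N) * (2 ^ (R + 5) * Q) := mul_le_mul_of_nonneg_left e3 (by linarith)
      _ = 2 ^ (R + 5) * Q * (T / N) := by ring
  have hLK : 0 ≤ L ^ K := pow_nonneg hL K
  calc J ≤ (T + Q) * Q * L ^ K := hJ
    _ ≤ (2 ^ (R + 5) * Q * (T / N)) * Q * L ^ K := by
        apply mul_le_mul_of_nonneg_right _ hLK
        exact mul_le_mul_of_nonneg_right h1 hQ0
    _ = 2 ^ (R + 5) * Q ^ 2 * L ^ K * (T / N) := by ring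

theorem BL5 (h1 : GRP_stmt) (h2 : CS3_stmt) (h3 : MVP_stmt) : BL5_stmt := by
  intro R c A η hη
  obtain ⟨K, N₁, hK⟩ := h3 R c
  refine ⟨A + K + 1, max N₁ ⌈Real.exp (320 * 2 ^ (R + 5))⌉₊, ?_⟩
  intro N hN B₁ M a hM ha hP1 hP2 hM85 hfive hsup
  have hN1 : N₁ ≤ N := le_trans (le_max_left _ _) hN
  have hexp : Real.exp (320 * 2 ^ (R + 5)) ≤ N :=
    le_trans (Nat.le_ceil _) (by exact_mod_cast le_trans (le_max_right _ _) hN)
  have hN0 : (0 : ℝ) < N := lt_of_lt_of_le (Real.exp_pos _) hexp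
  have hNpos : 1 ≤ N := by exact_mod_cast Nat.pos_of_ne_zero (by rintro rfl; simp at hN0)
  have hLbig : 320 * 2 ^ (R + 5) ≤ Real.log N := (Real.le_log_iff_exp_le hN0).2 hexp
  have hpow5 : (1 : ℝ) ≤ 2 ^ (R + 5) := one_le_pow₀ (by norm_num)
  have hL1 : 1 ≤ Real.log N := by linarith
  have hL0 : 0 < Real.log N := by linarith
  have hposM : ∀ i, (0 : ℝ) < M i := fun i => by exact_mod_cast hM i
  -- the product
  have hPpos : (0 : ℝ) < ((∏ i, M i : ℕ) : ℝ) := by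
    push_cast
    exact Finset.prod_pos fun i _ => hposM i
  have hlogP : 3 * Real.log N - (R + 4) * Real.log 2 ≤ Real.log ((∏ i, M i : ℕ) : ℝ) := by
    have e1 : (N : ℝ) ^ 3 ≤ 2 ^ (R + 4) * ((∏ i, M i : ℕ) : ℝ) := by exact_mod_cast hP1
    have e2 := Real.log_le_log (by positivity) e1
    rw [Real.log_pow, Real.log_mul (by positivity) hPpos.ne', Real.log_pow] at e2
    push_cast at e2 ⊢
    linarith
  have hR : ((R : ℝ) + 4) * Real.log 2 ≤ 2 ^ (R + 5) := by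
    have e1 : R + 4 ≤ 2 ^ (R + 5) := le_trans (by omega) (Nat.lt_two_pow_self (n := R + 5)).le
    have e2 : (R : ℝ) + 4 ≤ 2 ^ (R + 5) := by exact_mod_cast e1
    have e3 : Real.log 2 ≤ 1 := by
      have := Real.log_two_lt_d9
      linarith
    have e4 : (0 : ℝ) ≤ (R : ℝ) + 4 := by positivity
    nlinarith
  have hlogP0 : 0 < Real.log ((∏ i, M i : ℕ) : ℝ) := by
    nlinarith
  -- the exponents
  have hkey := h1 R (fun i => 3 * Real.log (M i) / Real.log ((∏ i, M i : ℕ) : ℝ))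
    (3 * (η * Real.log N) / Real.log ((∏ i, M i : ℕ) : ℝ)) (by positivity)
    (by
      intro i
      have : 0 ≤ Real.log (M i) := Real.log_nonneg (by exact_mod_cast hM i)
      positivity)
    (by
      intro i
      have e1 : Real.log (M i) ≤ (8 / 5) * Real.log N := by
        have := Real.log_le_log (hposM i) (hM85 i)
        rwa [Real.log_rpow hN0] at this
      rw [div_le_iff₀ hlogP0]
      nlinarith)
    (by
      rw [← Finset.sum_div, ← Finset.mul_sum]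
      push_cast
      rw [Real.log_prod (fun i _ => (hposM i).ne')]
      have : 0 < ∑ i, Real.log (M i) := by
        have e := hlogP0
        push_cast at e
        rwa [Real.log_prod (fun i _ => (hposM i).ne')] at e
      field_simp)
    (by
      refine le_trans hfive (Finset.card_le_card ?_)
      intro i hi
      rw [Finset.mem_filter] at hi ⊢
      refine ⟨hi.1, ?_⟩
      have e1 := Real.log_le_log (by positivity) hi.2
      rw [Real.log_rpow hN0] at e1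
      exact div_le_div_of_nonneg_right (by linarith) hlogP0.le)
  obtain ⟨k, hk, S, hkS, hS1, hS2⟩ := hkey
  have hkη : (N : ℝ) ^ η ≤ M k := by
    have e1 : 3 * (η * Real.log N) ≤ 3 * Real.log (M k) := by
      rwa [div_le_div_iff_of_pos_right hlogP0] at hk
    rw [← Real.log_le_log_iff (by positivity) (hposM k), Real.log_rpow hN0]
    linarith
  have hA := BL5_size N M hM S hP1 hlogP0 hS1
  have hD := BL5_size N M hM ((univ \ S).erase k) hP1 hlogP0 hS2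
  have hprodM : (∏ i, M i) = (∏ i ∈ S, M i) * (M k * ∏ i ∈ (univ \ S).erase k, M i) := by
    rw [Finset.mul_prod_erase (univ \ S) M (by simp [hkS]), mul_comm, Finset.prod_sdiff (Finset.subset_univ S)]
  have hprodD : ∀ t : ℝ, ∏ i, ‖DPb (M i) (a i) t‖ =
      ‖∏ i ∈ S, DPb (M i) (a i) t‖ * ‖∏ i ∈ (univ \ S).erase k, DPb (M i) (a i) t‖ * ‖DPb (M k) (a k) t‖ := by
    intro t
    rw [norm_prod, norm_prod]
    rw [← Finset.prod_sdiff (Finset.subset_univ S),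
      ← Finset.mul_prod_erase (univ \ S) (fun i => ‖DPb (M i) (a i) t‖) (show k ∈ univ \ S by simp [hkS])]
    ring
  have hP64 : ∏ i, M i ≤ 64 * N ^ 3 := le_trans hP2 (by
    have : 0 ≤ N ^ 3 := Nat.zero_le _
    omega)
  have hmvA := fun (T : ℝ) (hT : (N : ℝ) ≤ T) => BL5_mv R N K hNpos (Real.log N)
    ((∏ i ∈ S, M i : ℕ) : ℝ) _ hL0.le (by positivity) hA T hT
    (hK N hN1 M a hM hP64 ha S T (le_trans (by exact_mod_cast hNpos) hT))
  have hmvD := fun (T : ℝ) (hT : (N : ℝ) ≤ T) => BL5_mv R N K hNpos (Real.log N)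
    ((∏ i ∈ (univ \ S).erase k, M i : ℕ) : ℝ) _ hL0.le (by positivity) hD T hT
    (hK N hN1 M a hM hP64 ha ((univ \ S).erase k) T (le_trans (by exact_mod_cast hNpos) hT))
  have hcs := h2 N B₁ (fun t => ∏ i ∈ S, DPb (M i) (a i) t)
    (fun t => ∏ i ∈ (univ \ S).erase k, DPb (M i) (a i) t) (fun t => DPb (M k) (a k) t)
    (2 ^ (R + 5) * ((∏ i ∈ S, M i : ℕ) : ℝ) ^ 2 * Real.log N ^ K)
    (2 ^ (R + 5) * ((∏ i ∈ (univ \ S).erase k, M i : ℕ) : ℝ) ^ 2 * Real.log N ^ K)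
    (M k / Real.log N ^ (A + K + 1)) hNpos
    (continuous_finset_prod _ fun i _ => BL5_cont_DPb _ _)
    (continuous_finset_prod _ fun i _ => BL5_cont_DPb _ _) (BL5_cont_DPb _ _)
    (by positivity) (by positivity) (by positivity) hmvA hmvD (hsup k hkη)
  have hint : ∫ t in Tset (1 / 200) B₁ N, (∏ i, ‖DPb (M i) (a i) t‖) * min 1 (8 * (N : ℝ) ^ 2 / t ^ 2) =
      ∫ t in Tset (1 / 200) B₁ N, ‖∏ i ∈ S, DPb (M i) (a i) t‖ *
        ‖∏ i ∈ (univ \ S).erase k, DPb (M i) (a i) t‖ * ‖DPb (M k) (a k) t‖ *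
          min 1 (8 * (N : ℝ) ^ 2 / t ^ 2) := by
    congr 1
    funext t
    rw [hprodD t]
  rw [hint]
  refine le_trans hcs ?_
  have hsq : √(2 ^ (R + 5) * ((∏ i ∈ S, M i : ℕ) : ℝ) ^ 2 * Real.log N ^ K *
      (2 ^ (R + 5) * ((∏ i ∈ (univ \ S).erase k, M i : ℕ) : ℝ) ^ 2 * Real.log N ^ K)) =
      2 ^ (R + 5) * ((∏ i ∈ S, M i : ℕ) : ℝ) * ((∏ i ∈ (univ \ S).erase k, M i : ℕ) : ℝ) * Real.log N ^ K := by
    rw [show 2 ^ (R + 5) * ((∏ i ∈ S, M i : ℕ) : ℝ) ^ 2 * Real.log N ^ K *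
      (2 ^ (R + 5) * ((∏ i ∈ (univ \ S).erase k, M i : ℕ) : ℝ) ^ 2 * Real.log N ^ K) =
      (2 ^ (R + 5) * ((∏ i ∈ S, M i : ℕ) : ℝ) * ((∏ i ∈ (univ \ S).erase k, M i : ℕ) : ℝ) *
        Real.log N ^ K) ^ 2 by ring]
    exact Real.sqrt_sq (by positivity)
  rw [hsq]
  have hprodR : ((∏ i, M i : ℕ) : ℝ) = ((∏ i ∈ S, M i : ℕ) : ℝ) *
      ((M k : ℝ) * ((∏ i ∈ (univ \ S).erase k, M i : ℕ) : ℝ)) := by
    rw [hprodM]
    push_cast
    ring
  have e1 : 40 * ((M k : ℝ) / Real.log N ^ (A + K + 1) * (2 ^ (R + 5) * ((∏ i ∈ S, M i : ℕ) : ℝ) *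
      ((∏ i ∈ (univ \ S).erase k, M i : ℕ) : ℝ) * Real.log N ^ K)) =
      40 * 2 ^ (R + 5) * ((∏ i, M i : ℕ) : ℝ) / (Real.log N ^ A * Real.log N) := by
    rw [hprodR, pow_succ, pow_add]
    field_simp
  rw [e1]
  have e2 : ((∏ i, M i : ℕ) : ℝ) ≤ 8 * (N : ℝ) ^ 3 := by exact_mod_cast hP2
  rw [div_le_div_iff₀ (by positivity) (by positivity)]
  have e3 : 40 * 2 ^ (R + 5) * ((∏ i, M i : ℕ) : ℝ) ≤ (N : ℝ) ^ 3 * Real.log N := by
    calc 40 * 2 ^ (R + 5) * ((∏ i, M i : ℕ) : ℝ) ≤ 40 * 2 ^ (R + 5) * (8 * (N : ℝ) ^ 3) := by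
          exact mul_le_mul_of_nonneg_left e2 (by positivity)
      _ = (N : ℝ) ^ 3 * (320 * 2 ^ (R + 5)) := by ring
      _ ≤ (N : ℝ) ^ 3 * Real.log N := mul_le_mul_of_nonneg_left hLbig (by positivity)
  calc 40 * 2 ^ (R + 5) * ((∏ i, M i : ℕ) : ℝ) * Real.log N ^ A ≤
        ((N : ℝ) ^ 3 * Real.log N) * Real.log N ^ A := mul_le_mul_of_nonneg_right e3 (by positivity)
    _ = (N : ℝ) ^ 3 * (Real.log N ^ A * Real.log N) := by ring

end Pool.Agent.SK
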