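import Pool.Agent.helper24.SK.Spec

set_option autoImplicit false

namespace Pool.Agent.SK

open Finset ArithmeticFunction MeasureTheory
open Pool.Agent.CH (nit DPb Win Tset ph)
open Pool.Agent.EC (tri vN fN XN TL AdT)
open Pool.Agent.helper85.BVP (tau)
open GD (ks)

private theorem VD1_norm_ee (t : ℝ) : ‖AM.ee t‖ = 1 := by
  unfold AM.ee
  exact Complex.norm_exp_ofReal_mul_I _

private theorem VD1_ee_sub_nat (x : ℝ) (m k : ℕ) : AM.ee (x - (m : ℝ) * k) = AM.ee x := by
  unfold AM.ee
  have e : (((2 * Real.pi * (x - (m : ℝ) * k) : ℝ) : ℂ) * Complex.I) =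
      ((2 * Real.pi * x : ℝ) : ℂ) * Complex.I - ((m * k : ℕ) : ℂ) * (2 * Real.pi * Complex.I) := by
    push_cast
    ring
  rw [e, Complex.exp_sub, Complex.exp_nat_mul_two_pi_mul_I, div_one]

/-- a downward closed condition on `k < n` is `k < p` -/
private theorem VD1_thr (P : ℕ → Prop) : ∀ n : ℕ, (∀ i j, i ≤ j → j < n → P j → P i) →
    ∃ p, p ≤ n ∧ ∀ k < n, (P k ↔ k < p) := by
  intro n
  induction n with
  | zero => intro _; exact ⟨0, le_refl _, fun k hk => absurd hk (Nat.not_lt_zero _)⟩
  | succ n ih =>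
    intro h
    by_cases hP : P n
    · refine ⟨n + 1, le_refl _, fun k hk => ⟨fun _ => hk, fun _ => h k n (by omega) (by omega) hP⟩⟩
    · obtain ⟨p, hp, hk⟩ := ih (fun i j hij hj => h i j hij (by omega))
      refine ⟨p, by omega, fun k hk' => ?_⟩
      rcases Nat.lt_or_ge k n with h1 | h1
      · exact hk k h1
      · have e : k = n := by omega
        subst e
        exact ⟨fun h2 => absurd h2 hP, fun h2 => by omega⟩

/-- the sum over an interval of indices with the increments in `[m + θ, m + 1 - θ]` -/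
private theorem VD1_good (hKL : AM.KL_stmt) (x : ℕ → ℝ) (θ : ℝ) (hθ : 0 < θ) (hθ2 : θ ≤ 1 / 2) (m p q : ℕ)
    (h1 : ∀ k, p ≤ k → k < q → (m : ℝ) + θ ≤ x (k + 1) - x k)
    (h2 : ∀ k, p ≤ k → k < q → x (k + 1) - x k ≤ m + 1 - θ)
    (h3 : ∀ k, p ≤ k → k + 1 < q → x (k + 2) - x (k + 1) ≤ x (k + 1) - x k) :
    ‖∑ k ∈ Ico p q, AM.ee (x k)‖ ≤ 1 / θ + 1 := by
  rcases Nat.lt_or_ge p q with hpq | hpq
  · have hk := hKL (q - p) (fun k => x (p + k) - (m : ℝ) * k) θ hθ hθ2
      (by
        intro k hk
        have := h1 (p + k) (by omega) (by omega)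
        rw [show p + (k + 1) = p + k + 1 by ring]
        push_cast
        linarith)
      (by
        intro k hk
        have := h2 (p + k) (by omega) (by omega)
        rw [show p + (k + 1) = p + k + 1 by ring]
        push_cast
        linarith)
      (by
        intro k hk
        have := h3 (p + k) (by omega) (by omega)
        rw [show p + (k + 1) = p + k + 1 by ring, show p + (k + 2) = p + k + 2 by ring]
        push_cast
        linarith)
    simp only [VD1_ee_sub_nat] at hk
    rw [Finset.sum_range_succ] at hk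
    rw [Finset.sum_Ico_eq_sum_range]
    have e : ∑ k ∈ range (q - p), AM.ee (x (p + k)) =
        (∑ k ∈ range (q - p), AM.ee (x (p + k)) + AM.ee (x (p + (q - p)))) - AM.ee (x (p + (q - p))) := by
      ring
    rw [e]
    refine le_trans (norm_sub_le _ _) ?_
    rw [VD1_norm_ee]
    linarith
  · rw [Finset.Ico_eq_empty (by omega)]
    simp only [Finset.sum_empty, norm_zero]
    positivity

/-- second derivative test for sequences -/
private theorem VD1_gen (hKL : AM.KL_stmt) (n : ℕ) (x : ℕ → ℝ) (θ lam β : ℝ) (hθ : 0 < θ) (hθ2 : θ ≤ 1 / 2)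
    (hlam : 0 < lam) (hD0 : ∀ k < n, 0 ≤ x (k + 1) - x k) (hDβ : ∀ k < n, x (k + 1) - x k ≤ β) (hβ : 0 ≤ β)
    (hD : ∀ k, k + 1 < n → lam ≤ (x (k + 1) - x k) - (x (k + 2) - x (k + 1))) :
    ‖∑ k ∈ range (n + 1), AM.ee (x k)‖ ≤ (β + 2) * (1 / θ + 2 * θ / lam + 2) + 1 := by
  classical
  -- spacing
  have hsp : ∀ i d : ℕ, i + d < n → (d : ℝ) * lam ≤ (x (i + 1) - x i) - (x (i + d + 1) - x (i + d)) := by
    intro i d
    induction d with
    | zero => intro _; simp
    | succ d ih =>
      intro h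
      have h1 := ih (by omega)
      have h2 := hD (i + d) (by omega)
      rw [show i + (d + 1) + 1 = i + d + 2 by ring, show i + (d + 1) = i + d + 1 by ring]
      push_cast
      linarith
  have hanti : ∀ i j, i ≤ j → j < n → x (j + 1) - x j ≤ x (i + 1) - x i := by
    intro i j hij hj
    obtain ⟨d, rfl⟩ := Nat.exists_eq_add_of_le hij
    have := hsp i d hj
    have : (0 : ℝ) ≤ d * lam := by positivity
    linarith
  -- the classes
  set μ : ℕ → ℕ := fun k => ⌊x (k + 1) - x k + θ⌋₊ with hμ
  have hμle : ∀ k ∈ range n, μ k ∈ range (⌊β + θ⌋₊ + 1) := by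
    intro k hk
    rw [Finset.mem_range] at hk ⊢
    have := Nat.floor_le_floor (show x (k + 1) - x k + θ ≤ β + θ by linarith [hDβ k hk])
    simp only [hμ]
    omega
  have hμ1 : ∀ k < n, ∀ m, μ k = m ↔ ((m : ℝ) - θ ≤ x (k + 1) - x k ∧ x (k + 1) - x k < m + 1 - θ) := by
    intro k hk m
    have h0 : 0 ≤ x (k + 1) - x k + θ := by linarith [hD0 k hk]
    simp only [hμ]
    rw [Nat.floor_eq_iff h0]
    constructor
    · rintro ⟨h1, h2⟩; exact ⟨by linarith, by linarith⟩
    · rintro ⟨h1, h2⟩; exact ⟨by linarith, by linarith⟩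
  -- thresholds
  have hthr : ∀ c : ℝ, ∃ p, p ≤ n ∧ ∀ k < n, (c ≤ x (k + 1) - x k ↔ k < p) := by
    intro c
    exact VD1_thr (fun k => c ≤ x (k + 1) - x k) n (fun i j hij hj h => le_trans h (hanti i j hij hj))
  choose thr hthr1 hthr2 using hthr
  have hclass : ∀ m : ℕ, ‖∑ k ∈ (range n).filter (fun k => μ k = m), AM.ee (x k)‖ ≤
      1 / θ + 2 * θ / lam + 2 := by
    intro m
    have hsplit : (range n).filter (fun k => μ k = m) =
        Ico (thr (m + 1 - θ)) (thr (m + θ)) ∪ Ico (thr (m + θ)) (thr (m - θ)) := by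
      ext k
      simp only [Finset.mem_filter, Finset.mem_range, Finset.mem_union, Finset.mem_Ico]
      constructor
      · rintro ⟨hk, hkm⟩
        rw [hμ1 k hk m] at hkm
        have a1 := hthr2 (m + 1 - θ) k hk
        have a2 := hthr2 (m + θ) k hk
        have a3 := hthr2 (m - θ) k hk
        have b1 : ¬ k < thr (m + 1 - θ) := fun h => absurd (a1.2 h) (not_le.2 hkm.2)
        have b3 : k < thr (m - θ) := a3.1 hkm.1
        by_cases b2 : k < thr (m + θ)
        · left; exact ⟨by omega, b2⟩
        · right; exact ⟨by omega, b3⟩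
      · intro h
        have hk : k < n := by
          rcases h with h | h
          · exact lt_of_lt_of_le h.2 (hthr1 _)
          · exact lt_of_lt_of_le h.2 (hthr1 _)
        refine ⟨hk, ?_⟩
        rw [hμ1 k hk m]
        have a1 := hthr2 (m + 1 - θ) k hk
        have a2 := hthr2 (m + θ) k hk
        have a3 := hthr2 (m - θ) k hk
        rcases h with h | h
        · have c2 := a2.2 h.2
          have c1 : ¬ ((m : ℝ) + 1 - θ ≤ x (k + 1) - x k) := fun hh => by
            have := a1.1 hh
            omega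
          push Not at c1
          exact ⟨by linarith, c1⟩
        · have c3 := a3.2 h.2
          have c2 : ¬ ((m : ℝ) + θ ≤ x (k + 1) - x k) := fun hh => by
            have := a2.1 hh
            omega
          push Not at c2
          exact ⟨c3, by linarith⟩
    have hdisj : Disjoint (Ico (thr (m + 1 - θ)) (thr (m + θ))) (Ico (thr (m + θ)) (thr (m - θ))) :=
      Finset.Ico_disjoint_Ico_consecutive _ _ _
    rw [hsplit, Finset.sum_union hdisj]
    have hgood : ‖∑ k ∈ Ico (thr (m + 1 - θ)) (thr (m + θ)), AM.ee (x k)‖ ≤ 1 / θ + 1 := by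
      refine VD1_good hKL x θ hθ hθ2 m _ _ ?_ ?_ ?_
      · intro k _ hk2
        exact (hthr2 (m + θ) k (lt_of_lt_of_le hk2 (hthr1 _))).2 hk2
      · intro k hk1 hk2
        have hk : k < n := lt_of_lt_of_le hk2 (hthr1 _)
        by_contra hcon
        push Not at hcon
        have := (hthr2 (m + 1 - θ) k hk).1 hcon.le
        omega
      · intro k _ hk2
        have hk : k + 1 < n := lt_of_lt_of_le hk2 (hthr1 _)
        have := hanti k (k + 1) (by omega) hk
        rwa [show k + 1 + 1 = k + 2 by ring] at this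
    have hbad : ‖∑ k ∈ Ico (thr (m + θ)) (thr (m - θ)), AM.ee (x k)‖ ≤ 2 * θ / lam + 1 := by
      refine le_trans (norm_sum_le _ _) ?_
      simp only [VD1_norm_ee, Finset.sum_const, Nat.card_Ico, nsmul_eq_mul, mul_one]
      rcases Nat.lt_or_ge (thr (m + θ)) (thr (m - θ)) with hlt | hge
      · obtain ⟨d, hd⟩ : ∃ d, thr (m - θ) = thr (m + θ) + d + 1 :=
          ⟨thr (m - θ) - thr (m + θ) - 1, by omega⟩
        have hn : thr (m + θ) + d < n := by
          have := hthr1 (m - θ)
          omega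
        have h1 := hsp (thr (m + θ)) d hn
        have h2 : x (thr (m + θ) + 1) - x (thr (m + θ)) < m + θ := by
          by_contra hcon
          push Not at hcon
          have := (hthr2 (m + θ) (thr (m + θ)) (by omega)).1 hcon
          omega
        have h3 : (m : ℝ) - θ ≤ x (thr (m + θ) + d + 1) - x (thr (m + θ) + d) :=
          (hthr2 (m - θ) (thr (m + θ) + d) hn).2 (by omega)
        have h4 : (d : ℝ) ≤ 2 * θ / lam := by
          rw [le_div_iff₀ hlam]
          linarith
        have h5 : ((thr (m - θ) - thr (m + θ) : ℕ) : ℝ) = d + 1 := by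
          have : thr (m - θ) - thr (m + θ) = d + 1 := by omega
          rw [this]; push_cast; ring
        rw [h5]
        linarith
      · have h5 : thr (m - θ) - thr (m + θ) = 0 := by omega
        rw [h5]
        simp only [Nat.cast_zero]
        positivity
    refine le_trans (norm_add_le _ _) ?_
    linarith
  rw [Finset.sum_range_succ]
  have hfib : ∑ k ∈ range n, AM.ee (x k) = ∑ m ∈ range (⌊β + θ⌋₊ + 1),
      ∑ k ∈ (range n).filter (fun k => μ k = m), AM.ee (x k) :=
    (Finset.sum_fiberwise_of_maps_to hμle _).symm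
  rw [hfib]
  refine le_trans (norm_add_le _ _) ?_
  rw [VD1_norm_ee]
  have h1 : ‖∑ m ∈ range (⌊β + θ⌋₊ + 1), ∑ k ∈ (range n).filter (fun k => μ k = m), AM.ee (x k)‖ ≤
      ((⌊β + θ⌋₊ + 1 : ℕ) : ℝ) * (1 / θ + 2 * θ / lam + 2) := by
    refine le_trans (norm_sum_le _ _) ?_
    refine le_trans (Finset.sum_le_sum fun m _ => hclass m) ?_
    rw [Finset.sum_const, Finset.card_range, nsmul_eq_mul]
  have h2 : ((⌊β + θ⌋₊ + 1 : ℕ) : ℝ) ≤ β + 2 := by
    have := Nat.floor_le (show 0 ≤ β + θ by linarith)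
    push_cast
    linarith
  have h3 : 0 ≤ 1 / θ + 2 * θ / lam + 2 := by positivity
  have h4 := mul_le_mul_of_nonneg_right h2 h3
  linarith

private theorem VD1_nit (t y : ℝ) : nit t y = AM.ee (t / (2 * Real.pi) * Real.log y) := by
  unfold nit AM.ee
  congr 2
  have := Real.pi_pos
  have e : 2 * Real.pi * (t / (2 * Real.pi) * Real.log y) = t * Real.log y := by field_simp
  rw [e]

private theorem VD1_pos (hKL : AM.KL_stmt) (M a b : ℕ) (t θ : ℝ) (hM : 1 ≤ M) (ha : M ≤ a) (hab : a ≤ b)
    (hb : b ≤ 2 * M) (hθ0 : 0 ≤ θ) (hθ1 : θ ≤ 1) (ht : 1 ≤ t) :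
    ‖∑ n ∈ Ico a b, nit t (n + θ)‖ ≤ 25 * (M / t + √t) := by
  have hpi := Real.pi_pos
  have hpi3 := Real.pi_gt_three
  have hpi4 : Real.pi < 3.15 := Real.pi_lt_d2
  have hM0 : (0 : ℝ) < M := by exact_mod_cast hM
  have hM1 : (1 : ℝ) ≤ M := by exact_mod_cast hM
  have ht0 : 0 < t := by linarith
  have hst : 0 < √t := Real.sqrt_pos.2 ht0
  have hst1 : 1 ≤ √t := by
    rw [Real.one_le_sqrt]
    exact ht
  have hsq : √t * √t = t := Real.mul_self_sqrt ht0.le
  rcases Nat.eq_or_lt_of_le hab with hE | hlt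
  · subst hE
    simp only [Finset.Ico_self, Finset.sum_empty, norm_zero]
    positivity
  obtain ⟨n, hn⟩ : ∃ n, b = a + (n + 1) := ⟨b - a - 1, by omega⟩
  -- trivial bound
  rcases le_or_gt ((M : ℝ) ^ 2) t with htM | htM
  · have h1 : ‖∑ n ∈ Ico a b, nit t (n + θ)‖ ≤ M := by
      refine le_trans (norm_sum_le _ _) ?_
      have : ∀ n ∈ Ico a b, ‖nit t ((n : ℝ) + θ)‖ = 1 := by
        intro n _
        rw [VD1_nit, VD1_norm_ee]
      rw [Finset.sum_congr rfl this]
      simp only [Finset.sum_const, Nat.card_Ico, nsmul_eq_mul, mul_one]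
      have : b - a ≤ M := by omega
      exact_mod_cast this
    have h2 : (M : ℝ) ≤ √t := by
      rw [Real.le_sqrt' hM0]
      exact htM
    have h3 : 0 ≤ (M : ℝ) / t := by positivity
    linarith
  set x : ℕ → ℝ := fun k => t / (2 * Real.pi) * Real.log (a + k + θ) with hx
  have hsum : ∑ n ∈ Ico a b, nit t (n + θ) = ∑ k ∈ range (n + 1), AM.ee (x k) := by
    rw [Finset.sum_Ico_eq_sum_range, hn]
    rw [show a + (n + 1) - a = n + 1 by omega]
    apply Finset.sum_congr rfl
    intro k _
    rw [VD1_nit, hx]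
    push_cast
    rfl
  rw [hsum]
  have hy : ∀ k : ℕ, (M : ℝ) ≤ a + k + θ := by
    intro k
    have h1 : (M : ℝ) ≤ a := by exact_mod_cast ha
    have h2 : (0 : ℝ) ≤ k := by positivity
    linarith
  have hyu : ∀ k < n, (a : ℝ) + k + θ + 1 ≤ 2 * M := by
    intro k hk
    have h1 : a + k + 2 ≤ 2 * M := by omega
    have h2 : (a : ℝ) + k + 2 ≤ 2 * M := by exact_mod_cast h1
    linarith
  have hDk : ∀ k : ℕ, x (k + 1) - x k =
      t / (2 * Real.pi) * (Real.log (a + k + θ + 1) - Real.log (a + k + θ)) := by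
    intro k
    simp only [hx]
    push_cast
    rw [show (a : ℝ) + (k + 1) + θ = a + k + θ + 1 by ring]
    ring
  have hc : 0 < t / (2 * Real.pi) := by positivity
  -- the logarithm
  have hlogu : ∀ y : ℝ, 0 < y → Real.log (y + 1) - Real.log y ≤ 1 / y := by
    intro y hy0
    rw [← Real.log_div (by linarith) hy0.ne']
    have := Real.log_le_sub_one_of_pos (show 0 < (y + 1) / y by positivity)
    have e : (y + 1) / y - 1 = 1 / y := by field_simp; ring
    linarith
  have hlogl : ∀ y : ℝ, 0 < y → 1 / (y + 1) ≤ Real.log (y + 1) - Real.log y := by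
    intro y hy0
    have h1 := Real.log_le_sub_one_of_pos (show 0 < y / (y + 1) by positivity)
    rw [Real.log_div hy0.ne' (by linarith)] at h1
    have e : y / (y + 1) - 1 = -(1 / (y + 1)) := by field_simp; ring
    linarith
  have hDu : ∀ k < n, x (k + 1) - x k ≤ t / (2 * Real.pi * M) := by
    intro k _
    rw [hDk]
    have h1 := hlogu (a + k + θ) (by linarith [hy k])
    have h2 : 1 / ((a : ℝ) + k + θ) ≤ 1 / M := one_div_le_one_div_of_le hM0 (hy k)
    calc t / (2 * Real.pi) * (Real.log (a + k + θ + 1) - Real.log (a + k + θ)) ≤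
          t / (2 * Real.pi) * (1 / M) := mul_le_mul_of_nonneg_left (by linarith) hc.le
      _ = t / (2 * Real.pi * M) := by field_simp
  have hDl : ∀ k < n, t / (4 * Real.pi * M) ≤ x (k + 1) - x k := by
    intro k hk
    rw [hDk]
    have h1 := hlogl (a + k + θ) (by linarith [hy k])
    have h2 : 1 / (2 * (M : ℝ)) ≤ 1 / ((a : ℝ) + k + θ + 1) :=
      one_div_le_one_div_of_le (by linarith [hy k]) (hyu k hk)
    calc t / (4 * Real.pi * M) = t / (2 * Real.pi) * (1 / (2 * M)) := by field_simp; ring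
      _ ≤ t / (2 * Real.pi) * (Real.log (a + k + θ + 1) - Real.log (a + k + θ)) :=
        mul_le_mul_of_nonneg_left (by linarith) hc.le
  have hDD : ∀ k, k + 1 < n → t / (8 * Real.pi * M ^ 2) ≤
      (x (k + 1) - x k) - (x (k + 2) - x (k + 1)) := by
    intro k hk
    have e1 := hDk k
    have e2 := hDk (k + 1)
    rw [show k + 1 + 1 = k + 2 by ring] at e2
    push_cast at e2
    rw [show (a : ℝ) + (k + 1) + θ = a + k + θ + 1 by ring] at e2
    rw [e1, e2]
    have hy0 := hy k
    have hyu1 := hyu (k + 1) hk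
    push_cast at hyu1
    set y : ℝ := a + k + θ with hyd
    have hyp : 0 < y := by linarith
    have h3 : 1 / (y + 1) ^ 2 ≤ 2 * Real.log (y + 1) - Real.log y - Real.log (y + 2) := by
      have h1 := Real.log_le_sub_one_of_pos (show 0 < y * (y + 2) / (y + 1) ^ 2 by positivity)
      rw [Real.log_div (by positivity) (by positivity), Real.log_mul (by positivity) (by positivity),
        Real.log_pow] at h1
      have e : y * (y + 2) / (y + 1) ^ 2 - 1 = -(1 / (y + 1) ^ 2) := by field_simp; ring
      rw [e] at h1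
      push_cast at h1
      linarith
    have h4 : 1 / (4 * (M : ℝ) ^ 2) ≤ 1 / (y + 1) ^ 2 := by
      apply one_div_le_one_div_of_le (by positivity)
      have h5 : y + 1 ≤ 2 * M := by linarith
      nlinarith
    calc t / (8 * Real.pi * M ^ 2) = t / (2 * Real.pi) * (1 / (4 * M ^ 2)) := by field_simp; ring
      _ ≤ t / (2 * Real.pi) * (2 * Real.log (y + 1) - Real.log y - Real.log (y + 2)) :=
        mul_le_mul_of_nonneg_left (by linarith) hc.le
      _ = t / (2 * Real.pi) * (Real.log (y + 1) - Real.log y) -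
          t / (2 * Real.pi) * (Real.log (y + 1 + 1) - Real.log (y + 1)) := by
        rw [show y + 1 + 1 = y + 2 by ring]; ring
  rcases le_or_gt t (Real.pi * M) with htp | htp
  · -- first derivative
    have hθ' : t / (4 * Real.pi * M) ≤ 1 / 4 := by
      rw [div_le_iff₀ (by positivity)]
      linarith
    have hu : t / (2 * Real.pi * M) ≤ 1 / 2 := by
      rw [div_le_iff₀ (by positivity)]
      linarith
    have h1 := hKL n x (t / (4 * Real.pi * M)) (by positivity) (by linarith) hDl
      (fun k hk => by linarith [hDu k hk])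
      (fun k hk => by
        have := hDD k hk
        have h2 : 0 ≤ t / (8 * Real.pi * M ^ 2) := by positivity
        linarith)
    refine le_trans h1 ?_
    have e : 1 / (t / (4 * Real.pi * M)) = 4 * Real.pi * (M / t) := by field_simp
    rw [e]
    have h3 : 0 ≤ (M : ℝ) / t := by positivity
    nlinarith
  · -- second derivative
    have hMt : √t ≤ M := by
      rw [Real.sqrt_le_left hM0.le]
      exact htM.le
    have h1 := VD1_gen hKL n x (√t / (2 * M)) (t / (8 * Real.pi * M ^ 2)) (t / (2 * Real.pi * M))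
      (by positivity) (by rw [div_le_iff₀ (by positivity)]; linarith) (by positivity)
      (fun k hk => le_trans (by positivity) (hDl k hk)) hDu (by positivity) hDD
    refine le_trans h1 ?_
    have e1 : 1 / (√t / (2 * M)) = 2 * (M / √t) := by field_simp
    have e2 : 2 * (√t / (2 * M)) / (t / (8 * Real.pi * M ^ 2)) = 8 * Real.pi * (M / √t) := by
      have h7 : √t / t = 1 / √t := by
        rw [div_eq_div_iff ht0.ne' hst.ne', one_mul]
        exact hsq
      calc 2 * (√t / (2 * M)) / (t / (8 * Real.pi * M ^ 2)) = 8 * Real.pi * M * (√t / t) := by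
            field_simp
        _ = 8 * Real.pi * (M / √t) := by rw [h7]; ring
    have e3 : (1 : ℝ) ≤ M / √t := by
      rw [le_div_iff₀ hst]
      linarith
    have e4 : t / (2 * Real.pi * M) + 2 ≤ 5 / (2 * Real.pi) * (t / M) := by
      have h5 : 1 ≤ t / (Real.pi * M) := by
        rw [le_div_iff₀ (by positivity)]
        linarith
      have h6 : 5 / (2 * Real.pi) * (t / M) = t / (2 * Real.pi * M) + 2 * (t / (Real.pi * M)) := by
        field_simp
        ring
      rw [h6]
      linarith
    rw [e1, e2]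
    have e5 : 2 * (M / √t) + 8 * Real.pi * (M / √t) + 2 ≤ (4 + 8 * Real.pi) * (M / √t) := by nlinarith
    have e6 : (t / (2 * Real.pi * M) + 2) * (2 * (M / √t) + 8 * Real.pi * (M / √t) + 2) ≤
        (5 / (2 * Real.pi) * (t / M)) * ((4 + 8 * Real.pi) * (M / √t)) :=
      mul_le_mul e4 e5 (by positivity) (by positivity)
    have e7 : (5 / (2 * Real.pi) * (t / M)) * ((4 + 8 * Real.pi) * (M / √t)) =
        (10 / Real.pi + 20) * √t := by
      have : t / √t = √t := by
        rw [div_eq_iff hst.ne', hsq]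
      calc (5 / (2 * Real.pi) * (t / M)) * ((4 + 8 * Real.pi) * (M / √t)) =
            (10 / Real.pi + 20) * (t / √t) := by field_simp; ring
        _ = (10 / Real.pi + 20) * √t := by rw [this]
    have e8 : 10 / Real.pi ≤ 4 := by
      rw [div_le_iff₀ hpi]
      linarith
    have e9 : 0 ≤ (M : ℝ) / t := by positivity
    rw [e7] at e6
    nlinarith

theorem VD1 (h1 : AM.KL_stmt) : VD1_stmt := by
  refine ⟨25, by norm_num, ?_⟩
  intro M a b t θ hM ha hab hb hθ0 hθ1 ht
  rcases le_or_gt 0 t with h0 | h0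
  · rw [abs_of_nonneg h0] at ht ⊢
    exact VD1_pos h1 M a b t θ hM ha hab hb hθ0 hθ1 ht
  · rw [abs_of_neg h0] at ht ⊢
    have hconj : ∑ n ∈ Ico a b, nit t ((n : ℝ) + θ) =
        (starRingEnd ℂ) (∑ n ∈ Ico a b, nit (-t) ((n : ℝ) + θ)) := by
      rw [map_sum]
      apply Finset.sum_congr rfl
      intro n _
      unfold nit
      rw [← Complex.exp_conj, map_mul, Complex.conj_ofReal, Complex.conj_I]
      congr 1
      push_cast
      ring
    rw [hconj, Complex.norm_conj]
    exact VD1_pos h1 M a b (-t) θ hM ha hab hb hθ0 hθ1 ht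

end Pool.Agent.SK
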